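import Pool.Agent.H18.Cov4

namespace Pool.Agent.Results.MP_1000ca_al.UniformBound

/-- `G` is a `p ^ n`-cover: every group of order `p ^ n` is isomorphic to a subgroup of `G`. -/
def IsCover (p n : ℕ) (G : Type) [Group G] : Prop :=
  ∀ (H : Type) [Group H], Nat.card H = p ^ n → ∃ K : Subgroup G, Nonempty (K ≃* H)

/-- The set of orders of finite `p ^ n`-covers. -/
def coverOrders (p n : ℕ) : Set ℕ :=
  {N | ∃ (G : Type) (_ : Group G), Finite G ∧ IsCover p n G ∧ Nat.card G = N}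

/-- `m(p, n)`, the order of a minimum `p ^ n`-cover. -/
noncomputable def m (p n : ℕ) : ℕ := sInf (coverOrders p n)

theorem result : ∃ F : ℕ → ℕ, ∀ p n : ℕ, p.Prime → 1 ≤ n →
    IsLeast (coverOrders p n) (m p n) ∧ m p n ≤ p ^ F n := by
  choose F hF using Pool.Agent.H18.Cov.cover
  refine ⟨F, fun p n hp _ => ?_⟩
  obtain ⟨G, _, hfin, hcov, hcard⟩ := hF n p hp
  have hmem : Nat.card G ∈ coverOrders p n := by
    refine ⟨G, inferInstance, hfin, fun H _ hH => ?_, rfl⟩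
    obtain ⟨ψ, hψ⟩ := hcov H hH
    exact ⟨ψ.range, ⟨(MonoidHom.ofInjective hψ).symm⟩⟩
  exact ⟨⟨Nat.sInf_mem ⟨_, hmem⟩, fun _ h => Nat.sInf_le h⟩, (Nat.sInf_le hmem).trans hcard⟩

end Pool.Agent.Results.MP_1000ca_al.UniformBound
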